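import Mathlib
import Pool.Agent.Q214.TR.Main

/-!
# MP_6a38e0: a Borel set with exactly `ℵ₁` disjoint translates
-/

set_option autoImplicit false

open Set Filter Topology MeasureTheory Cardinal

namespace Pool.Agent.Results.MP_6a38e0_lc.ExactlyAlephOne

open Q214.TR

/-- The translates of `B` by the elements of `X` are pairwise disjoint. -/
def DisjTranslates (B X : Set ℝ) : Prop :=
  ∀ x ∈ X, ∀ y ∈ X, x ≠ y → Disjoint ((fun b => b + x) '' B) ((fun b => b + y) '' B)

lemma disj_iff (B : Set ℝ) (x y : ℝ) :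
    Disjoint ((fun b => b + x) '' B) ((fun b => b + y) '' B) ↔
      ∀ b ∈ B, ∀ b' ∈ B, b - b' ≠ x - y := by
  rw [Set.disjoint_left]
  constructor
  · intro h b hb b' hb' h1
    refine h (a := b' + x) ⟨b', hb', rfl⟩ ⟨b, hb, ?_⟩
    simp only
    linarith
  · rintro h _ ⟨b', hb', rfl⟩ ⟨b, hb, h1⟩
    refine h b hb b' hb' ?_
    simp only at h1
    linarith

lemma oser_sub {e e' : ℕ → ℤ} {K : ℕ} (h : ∀ m, |e m| ≤ K) (h' : ∀ m, |e' m| ≤ K) :
    oser e - oser e' = oser (fun m => e m - e' m) := by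
  have h1 : ∀ i, |comb (fun _ => 0) e i| ≤ (K : ℤ) := comb_bound (by simp) h
  have h2 : ∀ i, |comb (fun _ => 0) e' i| ≤ (K : ℤ) := comb_bound (by simp) h'
  rw [oser, oser, ser_sub h1 h2, oser]
  congr 1
  funext i
  rw [comb_sub]
  simp

lemma oser_eq_zero {e : ℕ → ℤ} (h : ∀ m, |e m| ≤ 3) (h0 : oser e = 0) (m : ℕ) : e m = 0 := by
  have hG : Good (comb (fun _ => 0) e) := by
    refine ⟨comb_bound (by simp) (fun m => (h m).trans (by norm_num)), fun i => Or.inl ?_⟩
    have := comb_bound (o := fun _ => 0) (q := e) (K := 3) (by simp) (by simpa using h) i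
    simpa using this
  have h1 := hG.eq_zero (n := 0) (by simpa [oser] using h0)
  have h2 := h1.2 (2 * m + 1)
  rwa [comb_odd] at h2

lemma chi_abs (a : ℕ → Bool) (m : ℕ) : |chi a m| ≤ ((1 : ℕ) : ℤ) := by
  obtain ⟨h1, h2⟩ := chi_bound a m
  rw [abs_le]
  push_cast
  constructor <;> omega

/-- An upper bound for the number of disjoint translates. -/
theorem upper {g : (ℕ → ℕ) → ℕ → ℤ} (hg : range g = AA) {X : Set ℝ}
    (hX : DisjTranslates (val '' BB g) X) : #X ≤ ℵ₁ := by
  classical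
  rcases X.eq_empty_or_nonempty with rfl | ⟨x₀, hx₀⟩
  · simp
  have key : ∀ x ∈ X, ∀ y ∈ X, x ≠ y → ∃ a b, Ed a b ∧ x - y = oser (psi (a, b)) := by
    intro x hx y hy hxy
    have h1 := (disj_iff _ _ _).1 (hX x hx y hy hxy)
    rcases mem_diff hg (x - y) with ⟨e, ⟨a, b, hab, rfl⟩, he⟩ | ⟨p, hp, p', hp', h2⟩
    · exact ⟨a, b, hab, he⟩
    · exact absurd h2 (h1 _ (mem_image_of_mem _ hp) _ (mem_image_of_mem _ hp'))
  have key2 : ∀ x : ↥(X \ {x₀}), ∃ a b, Ed a b ∧ (x : ℝ) - x₀ = oser (psi (a, b)) :=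
    fun x => key x x.2.1 x₀ hx₀ x.2.2
  choose a b hab hx using key2
  let F : ↥(X \ {x₀}) → Iio (Ordinal.omega 1) × Iio (Ordinal.omega 1) :=
    fun x => (⟨ot (a x), ot_lt _⟩, ⟨ot (b x), ot_lt _⟩)
  have hF : Function.Injective F := by
    intro x y hxy
    by_contra hne
    have hne' : (x : ℝ) ≠ y := fun h => hne (Subtype.ext h)
    have h1 : ot (a x) = ot (a y) := congrArg Subtype.val (congrArg Prod.fst hxy)
    have h2 : ot (b x) = ot (b y) := congrArg Subtype.val (congrArg Prod.snd hxy)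
    obtain ⟨c, d, hcd, h3⟩ := key x x.2.1 y y.2.1 hne'
    have hp1 : ∀ p : (ℕ → Bool) × (ℕ → Bool), ∀ m, |psi p m| ≤ ((1 : ℕ) : ℤ) := by
      intro p m
      simpa using psi_bound p m
    have hp2 : ∀ m, |psi (a x, b x) m - psi (a y, b y) m| ≤ ((2 : ℕ) : ℤ) := by
      intro m
      have h4 := psi_bound (a x, b x) m
      have h5 := psi_bound (a y, b y) m
      rw [abs_le] at h4 h5 ⊢
      push_cast
      constructor <;> omega
    have h4 : oser (fun m => (psi (a x, b x) m - psi (a y, b y) m) - psi (c, d) m) = 0 := by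
      rw [← oser_sub hp2 (fun m => (hp1 (c, d) m).trans (by norm_num)),
        ← oser_sub (hp1 _) (hp1 _), ← h3, ← hx x, ← hx y]
      ring
    have h5 := oser_eq_zero (fun m => by
      have h6 := hp2 m
      have h7 := psi_bound (c, d) m
      rw [abs_le] at h6 h7 ⊢
      push_cast at h6
      constructor <;> omega) h4
    have h6 := indicator_three (a := a x) (b := b y) (c := d) (a' := b x) (b' := a y) (c' := c) (by
      intro m
      have h7 := h5 m
      simp only [psi] at h7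
      linarith) (fun z => if ot z = ot d then 1 else 0)
    simp only [h1, h2, if_true, if_neg hcd.ot_ne] at h6
    split_ifs at h6 <;> omega
  have h1 := Cardinal.lift_mk_le_lift_mk_of_injective hF
  have h2 : #(↥(X \ {x₀})) ≤ ℵ₁ := by
    rw [Cardinal.mk_prod, Cardinal.mk_Iio_ordinal, Ordinal.card_omega, Cardinal.lift_lift,
      ← Cardinal.lift_mul, Cardinal.lift_lift, Cardinal.lift_le,
      Cardinal.mul_eq_self (Cardinal.aleph0_le_aleph 1)] at h1
    exact h1
  have h3 : #X ≤ #(↥(X \ {x₀})) + 1 := by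
    have h4 : X = insert x₀ (X \ {x₀}) := by
      rw [Set.insert_sdiff_singleton, Set.insert_eq_of_mem hx₀]
    calc #X = #(↥(insert x₀ (X \ {x₀}))) := by rw [← h4]
      _ ≤ _ := Cardinal.mk_insert_le
  refine h3.trans ?_
  calc #(↥(X \ {x₀})) + 1 ≤ ℵ₁ + ℵ₁ := add_le_add h2 (Cardinal.one_le_aleph0.trans
        (Cardinal.aleph0_le_aleph 1))
    _ = ℵ₁ := Cardinal.add_eq_self (Cardinal.aleph0_le_aleph 1)

/-- A large family of disjoint translates. -/
theorem lower {g : (ℕ → ℕ) → ℕ → ℤ} (hg : range g = AA) :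
    ∃ X : Set ℝ, #X = ℵ₁ ∧ DisjTranslates (val '' BB g) X := by
  have h1 : ∀ i : (Ordinal.omega 1).ToType, ∃ a, IsWellOrder ℕ (Rel a) ∧
      ot a = Ordinal.omega0 + Ordinal.typein (α := (Ordinal.omega 1).ToType) (· < ·) i := by
    intro i
    refine exists_code ?_
    have h2 : (Ordinal.typein (α := (Ordinal.omega 1).ToType) (· < ·) i).card ≤ ℵ₀ := by
      have h3 : _ < Ordinal.omega 1 := Ordinal.typein_lt_self i
      generalize Ordinal.typein (α := (Ordinal.omega 1).ToType) (· < ·) i = o at h3 ⊢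
      rw [← Cardinal.ord_aleph, Cardinal.lt_ord, ← Cardinal.succ_aleph0, Order.lt_succ_iff] at h3
      exact h3
    rw [Ordinal.card_add, Ordinal.card_omega0]
    exact Cardinal.add_eq_left le_rfl h2
  choose c hc hot using h1
  have hEd : ∀ i j, i ≠ j → Ed (c i) (c j) := by
    intro i j hij
    refine Ed_of_ot_ne (hc i) (hc j) ?_
    rw [hot, hot]
    intro h
    have h2 := (add_right_inj _).1 h
    exact hij (Ordinal.typein_injective _ h2)
  have hdiff : ∀ i j, oser (chi (c i)) - oser (chi (c j)) = oser (psi (c i, c j)) := by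
    intro i j
    rw [oser_sub (chi_abs _) (chi_abs _)]
    rfl
  have hno : ∀ i j, i ≠ j → ∀ b ∈ val '' BB g, ∀ b' ∈ val '' BB g,
      b - b' ≠ oser (chi (c i)) - oser (chi (c j)) := by
    rintro i j hij _ ⟨p, hp, rfl⟩ _ ⟨p', hp', rfl⟩
    rw [hdiff]
    exact not_mem_diff hg ⟨_, _, hEd i j hij, rfl⟩ hp hp'
  have hinj : Function.Injective fun i => oser (chi (c i)) := by
    intro i j hij
    by_contra hne
    have h2 : pt g 1 0 ∈ BB g := Or.inr (Or.inl ⟨0, rfl⟩)
    refine hno i j hne _ (mem_image_of_mem _ h2) _ (mem_image_of_mem _ h2) ?_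
    simp only at hij
    rw [hij, sub_self, sub_self]
  refine ⟨range fun i => oser (chi (c i)), ?_, ?_⟩
  · rw [Cardinal.mk_range_eq _ hinj, Cardinal.mk_toType, Ordinal.card_omega]
  · rintro _ ⟨i, rfl⟩ _ ⟨j, rfl⟩ hij
    rw [disj_iff]
    refine hno i j ?_
    rintro rfl
    exact hij rfl

theorem exists_borel : ∃ B : Set ℝ, MeasurableSet B ∧
    (∃ X : Set ℝ, #X = ℵ₁ ∧ DisjTranslates B X) ∧ ∀ X : Set ℝ, DisjTranslates B X → #X ≤ ℵ₁ := by
  obtain ⟨g, hg, hg2⟩ := exists_enum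
  exact ⟨val '' BB g, measurableSet_val_BB hg, lower hg2, fun X hX => upper hg2 hX⟩

/-- There is a Borel set of reals with `ℵ₁`, but never more than `ℵ₁`, pairwise disjoint
translates. Consequently the assertion that every Borel set with uncountably many pairwise
disjoint translates has continuum many is equivalent to the continuum hypothesis. -/
theorem result :
    (∃ B : Set ℝ, MeasurableSet B ∧ (∃ X : Set ℝ, #X = ℵ₁ ∧ DisjTranslates B X) ∧
      ∀ X : Set ℝ, DisjTranslates B X → #X ≤ ℵ₁) ∧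
    ((∀ B : Set ℝ, MeasurableSet B → (∃ X : Set ℝ, ¬ X.Countable ∧ DisjTranslates B X) →
      ∃ X : Set ℝ, #X = 𝔠 ∧ DisjTranslates B X) ↔ (𝔠 : Cardinal.{0}) = ℵ₁) := by
  refine ⟨exists_borel, ?_, ?_⟩
  · intro h
    obtain ⟨B, hB, ⟨X, hX, hX2⟩, hB2⟩ := exists_borel
    obtain ⟨Y, hY, hY2⟩ := h B hB ⟨X, by
      rw [← Cardinal.le_aleph0_iff_set_countable, hX, not_le]
      exact Cardinal.aleph0_lt_aleph_one, hX2⟩
    refine le_antisymm ?_ Cardinal.aleph_one_le_continuum
    rw [← hY]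
    exact hB2 Y hY2
  · rintro h B _ ⟨X, hX, hX2⟩
    refine ⟨X, le_antisymm ?_ ?_, hX2⟩
    · rw [← Cardinal.mk_real]
      exact Cardinal.mk_set_le X
    · rw [h, ← Cardinal.succ_aleph0, Order.succ_le_iff]
      rw [← Cardinal.le_aleph0_iff_set_countable, not_le] at hX
      exact hX

end Pool.Agent.Results.MP_6a38e0_lc.ExactlyAlephOne
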